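import Mathlib

/-!
# A Kneser-type extension of Pollard's theorem (MP_cd64ef)

The question asks whether, for all `t ≥ 1`, all abelian groups `G` and all finite `A, B ⊆ G` with
`|A|, |B| ≥ t` and `∑_{i ≤ t} |A +_i B| < t|A| + t|B| - t²`, there are, with `H = H(A +_t B)` and
`t = s|H| + u`, `1 ≤ u ≤ |H|`, sets `A' ⊆ A`, `B' ⊆ B` with `|A ∖ A'| + |B ∖ B'| < u`,
`A' + B' = A' +_u B' = A +_u B` and `H(A' + B') = H(A' +_u B') = H` (and moreover a lower bound for
the sum).  We show that this fails for every `t ≥ 3`.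

Counterexample: `G = ℤ/3 × ℤ/h` with `h = t - 1 ≥ 2` and `A = B = {0, 1} × ℤ/h`.  Every element has
`h` or `2h` representations, so that `A +_i B = G` for `i ≤ h` and `A +_t B = {1} × ℤ/h`.  Hence
`H = 0 × ℤ/h`, `s = u = 1`, and `A +_u B = A + B = G` has stabilizer `G ≠ H`, whatever `A', B'` are.
In fact no subgroup `K` at all can play the role of `H`.
-/

namespace Pool.Agent.Results.MP_cd64ef_nt.FalseForTAtLeastThree

open Finset

/-- The number `r_{A,B}(g)` of pairs `(a, b) ∈ A × B` with `a + b = g`. -/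
def rep {G : Type} [AddCommGroup G] [DecidableEq G] (A B : Finset G) (g : G) : ℕ :=
  ((A ×ˢ B).filter (fun p => p.1 + p.2 = g)).card

/-- The `t`-popular sumset `A +_t B`. -/
def popSum {G : Type} [AddCommGroup G] [DecidableEq G] (t : ℕ) (A B : Finset G) : Set G :=
  {g | t ≤ rep A B g}

/-- The stabilizer `H(X) = {e : e + X = X}`. -/
def stab {G : Type} [AddCommGroup G] (X : Set G) : Set G :=
  {e | (fun x => e + x) '' X = X}

/-- The hypotheses of the question: `|A|, |B| ≥ t` and
`∑_{i=1}^t |A +_i B| < t|A| + t|B| - t²`. -/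
def Small {G : Type} [AddCommGroup G] [DecidableEq G] (t : ℕ) (A B : Finset G) : Prop :=
  t ≤ A.card ∧ t ≤ B.card ∧
    ∑ i ∈ Icc 1 t, Nat.card (popSum i A B) + t ^ 2 < t * A.card + t * B.card

/-- The conclusion of the question for `t`, `A`, `B`, with a set `H` (to be the stabilizer
`H(A +_t B)`) and a number `u` (to be the one with `t = s|H| + u`, `1 ≤ u ≤ |H|`). -/
def Conclusion {G : Type} [AddCommGroup G] [DecidableEq G] (t : ℕ) (A B : Finset G)
    (H : Set G) (u : ℕ) : Prop :=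
  (∃ A' B' : Finset G, A' ⊆ A ∧ B' ⊆ B ∧ (A \ A').card + (B \ B').card < u ∧
    popSum 1 A' B' = popSum u A' B' ∧ popSum u A' B' = popSum u A B ∧
    stab (popSum 1 A' B') = H ∧ stab (popSum u A' B') = H) ∧
  t * A.card + t * B.card ≤
    ∑ i ∈ Icc 1 t, Nat.card (popSum i A B) + t ^ 2 + u * (Nat.card H - u)

/-- The statement in question, for a given `t`: under the hypotheses, the conclusion holds
with `H = H(A +_t B)` and `t = s|H| + u`, `1 ≤ u ≤ |H|`. -/
def KneserPollard (t : ℕ) : Prop :=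
  ∀ (G : Type) [AddCommGroup G] [DecidableEq G] (A B : Finset G), Small t A B →
    ∃ s u : ℕ, 1 ≤ u ∧ u ≤ Nat.card (stab (popSum t A B)) ∧
      t = s * Nat.card (stab (popSum t A B)) + u ∧
      Conclusion t A B (stab (popSum t A B)) u

/-- A weaker statement: under the hypotheses, the conclusion holds with some finite subgroup `H`
of `G` (not necessarily `H(A +_t B)`) and `t = s|H| + u`, `1 ≤ u ≤ |H|`. -/
def WeakKneserPollard (t : ℕ) : Prop :=
  ∀ (G : Type) [AddCommGroup G] [DecidableEq G] (A B : Finset G), Small t A B →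
    ∃ (H : AddSubgroup G) (s u : ℕ), 1 ≤ u ∧ u ≤ Nat.card (H : Set G) ∧
      t = s * Nat.card (H : Set G) + u ∧ Conclusion t A B (H : Set G) u

/-! ### The counterexample -/

variable {h : ℕ} [NeZero h]

/-- `A = {0, 1} × ℤ/h ⊆ ℤ/3 × ℤ/h`. -/
def exA (h : ℕ) [NeZero h] : Finset (ZMod 3 × ZMod h) := ({0, 1} : Finset (ZMod 3)) ×ˢ univ

theorem card_exA : (exA h).card = 2 * h := by
  have h2 : ({0, 1} : Finset (ZMod 3)).card = 2 := by decide
  rw [exA, card_product, h2, card_univ, ZMod.card]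

theorem rep_base (x : ZMod 3) :
    ((({0, 1} : Finset (ZMod 3)) ×ˢ ({0, 1} : Finset (ZMod 3))).filter
      (fun p => p.1 + p.2 = x)).card = if x = 1 then 2 else 1 := by
  revert x
  decide

theorem rep_exA (g : ZMod 3 × ZMod h) :
    rep (exA h) (exA h) g = (if g.1 = 1 then 2 else 1) * h := by
  classical
  rw [← rep_base g.1]
  have hh : (univ : Finset (ZMod h)).card = h := by rw [card_univ, ZMod.card]
  refine Eq.trans ?_ (congrArg (fun k => ((({0, 1} : Finset (ZMod 3)) ×ˢ
    ({0, 1} : Finset (ZMod 3))).filter (fun p => p.1 + p.2 = g.1)).card * k) hh)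
  rw [← card_product, rep]
  refine card_bij' (fun p _ => ((p.1.1, p.2.1), p.1.2))
    (fun q _ => ((q.1.1, q.2), (q.1.2, g.2 - q.2))) ?_ ?_ ?_ ?_
  · rintro ⟨⟨a1, a2⟩, ⟨b1, b2⟩⟩ hp
    simp only [mem_filter, mem_product, exA, mem_univ, and_true] at hp ⊢
    exact ⟨hp.1, by rw [← hp.2]; rfl⟩
  · rintro ⟨⟨a1, b1⟩, a2⟩ hq
    simp only [mem_filter, mem_product, exA, mem_univ, and_true] at hq ⊢
    refine ⟨hq.1, ?_⟩
    ext
    · simpa using hq.2
    · simp
  · rintro ⟨⟨a1, a2⟩, ⟨b1, b2⟩⟩ hp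
    simp only [mem_filter, mem_product, exA, mem_univ, and_true] at hp
    have : g.2 - a2 = b2 := by rw [← hp.2]; simp
    simp [this]
  · rintro ⟨⟨a1, b1⟩, a2⟩ hq
    rfl

theorem popSum_low {i : ℕ} (hi : i ≤ h) : popSum i (exA h) (exA h) = Set.univ := by
  rw [Set.eq_univ_iff_forall]
  intro g
  show i ≤ rep _ _ g
  rw [rep_exA]
  split_ifs <;> omega

theorem popSum_high {i : ℕ} (hi : h < i) (hi2 : i ≤ 2 * h) :
    popSum i (exA h) (exA h) = {g | g.1 = 1} := by
  ext g
  show i ≤ rep _ _ g ↔ g.1 = 1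
  rw [rep_exA]
  split_ifs with h1
  · simp only [h1, iff_true]
    omega
  · simp only [h1, iff_false]
    omega

theorem card_slice : Nat.card ({g : ZMod 3 × ZMod h | g.1 = 1} : Set _) = h := by
  have : ({g : ZMod 3 × ZMod h | g.1 = 1} : Set _) = ({1} : Set (ZMod 3)) ×ˢ Set.univ := by
    ext g
    simp
  rw [this, Nat.card_coe_set_eq, Set.ncard_prod]
  simp

theorem stab_univ {G : Type} [AddCommGroup G] : stab (Set.univ : Set G) = Set.univ := by
  rw [Set.eq_univ_iff_forall]
  intro e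
  show (fun x => e + x) '' Set.univ = Set.univ
  rw [Set.image_univ]
  exact (AddGroup.addLeft_bijective e).surjective.range_eq

theorem stab_slice : stab ({g : ZMod 3 × ZMod h | g.1 = 1} : Set _) = {g | g.1 = 0} := by
  ext e
  show (fun x => e + x) '' {g : ZMod 3 × ZMod h | g.1 = 1} = {g | g.1 = 1} ↔ e.1 = 0
  constructor
  · intro he
    have h1 : e + ((1, 0) : ZMod 3 × ZMod h) ∈
        (fun x => e + x) '' {g : ZMod 3 × ZMod h | g.1 = 1} := ⟨(1, 0), rfl, rfl⟩
    rw [he] at h1
    simpa using h1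
  · intro he
    ext g
    simp only [Set.mem_image, Set.mem_ofPred_eq]
    constructor
    · rintro ⟨x, hx, rfl⟩
      simp [he, hx]
    · intro hg
      refine ⟨g - e, ?_, ?_⟩
      · simp [he, hg]
      · simp

theorem card_zero_slice : Nat.card ({g : ZMod 3 × ZMod h | g.1 = 0} : Set _) = h := by
  have : ({g : ZMod 3 × ZMod h | g.1 = 0} : Set _) = ({0} : Set (ZMod 3)) ×ˢ Set.univ := by
    ext g
    simp
  rw [this, Nat.card_coe_set_eq, Set.ncard_prod]
  simp

theorem card_group : Nat.card (Set.univ : Set (ZMod 3 × ZMod h)) = 3 * h := by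
  rw [Nat.card_coe_set_eq, Set.ncard_univ, Nat.card_prod]
  simp

theorem sum_eq : ∑ i ∈ Icc 1 (h + 1), Nat.card (popSum i (exA h) (exA h)) = h * (3 * h) + h := by
  rw [Finset.sum_Icc_succ_top (by omega)]
  have hpos : 0 < h := Nat.pos_of_ne_zero (NeZero.ne h)
  congr 1
  · rw [Finset.sum_congr rfl (fun i hi => ?_), Finset.sum_const, Nat.card_Icc,
      Nat.add_sub_cancel, smul_eq_mul]
    rw [popSum_low (Finset.mem_Icc.1 hi).2, card_group]
  · rw [popSum_high (by omega) (by omega), card_slice]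

theorem small (hh : 2 ≤ h) : Small (h + 1) (exA h) (exA h) := by
  refine ⟨by rw [card_exA]; omega, by rw [card_exA]; omega, ?_⟩
  rw [sum_eq, card_exA]
  nlinarith

/-- No subgroup can play the role of `H`. -/
theorem no_subgroup (hh : 2 ≤ h) (K : AddSubgroup (ZMod 3 × ZMod h)) (s u : ℕ) (hu : 1 ≤ u)
    (huK : u ≤ Nat.card (K : Set (ZMod 3 × ZMod h)))
    (ht : h + 1 = s * Nat.card (K : Set (ZMod 3 × ZMod h)) + u) :
    stab (popSum u (exA h) (exA h)) ≠ (K : Set (ZMod 3 × ZMod h)) := by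
  intro hK
  rcases Nat.lt_or_ge h (Nat.card (K : Set (ZMod 3 × ZMod h))) with hlt | hge
  · -- `|K| ≥ h + 1`, hence `s = 0` and `u = h + 1`, or ... `u = |K|`
    have hs : s = 0 := by
      rcases Nat.eq_zero_or_pos s with h0 | h0
      · exact h0
      · exfalso
        have : Nat.card (K : Set (ZMod 3 × ZMod h)) ≤
            s * Nat.card (K : Set (ZMod 3 × ZMod h)) := Nat.le_mul_of_pos_left _ h0
        omega
    subst hs
    have hu' : u = h + 1 := by omega
    subst hu'
    rw [popSum_high (by omega) (by omega), stab_slice] at hK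
    rw [← hK, card_zero_slice] at hlt
    exact lt_irrefl _ hlt
  · rw [popSum_low (le_trans huK hge), stab_univ] at hK
    rw [← hK, card_group] at hge
    have hpos : 0 < h := by omega
    omega

/-- **The question has a negative answer, for every `t ≥ 3`**, also in the weaker form in which `H`
may be any finite subgroup of `G`. -/
theorem result (t : ℕ) (ht : 3 ≤ t) : ¬ KneserPollard t ∧ ¬ WeakKneserPollard t := by
  obtain ⟨h, rfl⟩ : ∃ h, t = h + 1 := ⟨t - 1, by omega⟩
  have hh : 2 ≤ h := by omega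
  have : NeZero h := ⟨by omega⟩
  have hst : stab (popSum (h + 1) (exA h) (exA h)) = {g | g.1 = 0} := by
    rw [popSum_high (by omega) (by omega), stab_slice]
  constructor
  · intro hKP
    obtain ⟨s, u, hu1, hu2, hts, ⟨A', B', hA, hB, hcard, h1, h2, h3, h4⟩, hlow⟩ :=
      hKP (ZMod 3 × ZMod h) (exA h) (exA h) (small hh)
    rw [hst, card_zero_slice] at hu2 hts
    have hcontra : stab (popSum u (exA h) (exA h)) =
        stab (popSum (h + 1) (exA h) (exA h)) := by rw [← h2, h4]
    rw [popSum_low hu2, stab_univ, hst] at hcontra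
    have h5 : ((1 : ZMod 3), (0 : ZMod h)) ∈ ({g | g.1 = 0} : Set (ZMod 3 × ZMod h)) := by
      rw [← hcontra]
      trivial
    exact absurd h5 (by simp)
  · intro hWKP
    obtain ⟨K, s, u, hu1, hu2, hts, ⟨A', B', hA, hB, hcard, h1, h2, h3, h4⟩, hlow⟩ :=
      hWKP (ZMod 3 × ZMod h) (exA h) (exA h) (small hh)
    exact no_subgroup hh K s u hu1 hu2 hts (by rw [← h2, h4])

end Pool.Agent.Results.MP_cd64ef_nt.FalseForTAtLeastThree
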